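import Pool.Agent.Y536.OQ.Stm

/-! Project OQ: the inequality for the odd permutations (job OQ-COS). -/

set_option autoImplicit false

namespace Pool.Agent.Y67.OQ.COS

open Pool.Agent.Y536.OQ Pool.Agent.Y536.OP Finset
open scoped Nat

theorem card2 (m : ℕ) (hm : 5 ≤ m) : 2 * Nat.card (alternatingGroup (Fin m)) = m ! := by
  have : Nontrivial (Fin m) := Fin.nontrivial_iff_two_le.2 (by omega)
  have h := two_mul_nat_card_alternatingGroup (α := Fin m)
  rw [h, Nat.card_perm, Nat.card_eq_fintype_card, Fintype.card_fin]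

theorem cardK (m : ℕ) (hm : 5 ≤ m) :
    (univ.filter (fun s : Equiv.Perm (Fin m) => Equiv.Perm.sign s = -1)).card =
      Nat.card (alternatingGroup (Fin m)) := by
  classical
  have h1 : Nat.card (alternatingGroup (Fin m)) =
      (univ.filter (fun s : Equiv.Perm (Fin m) => ¬ Equiv.Perm.sign s = -1)).card := by
    rw [Nat.card_eq_fintype_card, Fintype.card_subtype]
    congr 1
    apply Finset.filter_congr
    intro s _
    rw [Equiv.Perm.mem_alternatingGroup]
    constructor
    · intro h h'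
      rw [h] at h'
      exact absurd h' (by decide)
    · intro h
      exact (Int.units_eq_one_or _).resolve_right h
  have h2 := Finset.card_filter_add_card_filter_not (s := (univ : Finset (Equiv.Perm (Fin m))))
    (fun s => Equiv.Perm.sign s = -1)
  rw [Finset.card_univ, Fintype.card_perm, Fintype.card_fin, ← h1, ← card2 m hm] at h2
  omega

theorem done : S_COS := by
  classical
  intro m hm h σ δ hσ hδ h2
  obtain ⟨n, hn⟩ : ∃ n : ℕ, n = Nat.card (alternatingGroup (Fin m)) := ⟨_, rfl⟩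
  obtain ⟨K, hK⟩ : ∃ K : Finset (Equiv.Perm (Fin m)), K =
    univ.filter (fun s : Equiv.Perm (Fin m) => Equiv.Perm.sign s = -1) := ⟨_, rfl⟩
  have hKn : K.card = n := by rw [hK, hn]; exact cardK m hm
  have hmn : 2 * n = m ! := by rw [hn]; exact card2 m hm
  have hn0 : 0 < n := by
    have := Nat.factorial_pos m
    omega
  have hnR : (0 : ℝ) < n := by exact_mod_cast hn0
  rw [← hn, ← hK]
  have hδ1 : ∀ p ∈ σ, 0 ≤ 1 - δ p := fun p hp => by
    linarith [le_half (hσ p hp) (hδ p hp)]
  obtain ⟨σ', hσ'⟩ : ∃ σ' : Finset ℕ, σ' = σ.filter (fun p => p ≤ m) := ⟨_, rfl⟩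
  obtain ⟨P, hP⟩ : ∃ P : ℝ, P = ∏ p ∈ σ.filter (fun p => ¬ p ≤ m), (1 - δ p) := ⟨_, rfl⟩
  have hP0 : 0 ≤ P := by
    rw [hP]
    exact Finset.prod_nonneg fun p hp => hδ1 p (Finset.mem_filter.1 hp).1
  have hord : ∀ s : Equiv.Perm (Fin m), ∀ p : ℕ, p.Prime → ¬ p ≤ m → ¬ p ∣ orderOf s := by
    intro s p hp hpm hd
    have h3 : orderOf s ∣ m ! := by
      have := orderOf_dvd_card (x := s)
      rwa [Fintype.card_perm, Fintype.card_fin] at this
    exact hpm ((hp.dvd_factorial).1 (hd.trans h3))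
  have hphi : ∀ s : Equiv.Perm (Fin m), phi σ δ s = P * phi σ' δ s := by
    intro s
    unfold phi
    rw [← Finset.prod_filter_mul_prod_filter_not σ (fun p => p ≤ m), mul_comm, hP, hσ']
    congr 1
    apply Finset.prod_congr rfl
    intro p hp
    obtain ⟨h4, h5⟩ := Finset.mem_filter.1 hp
    rw [if_neg (hord s p (hσ p h4) h5)]
  have hBd : Bd σ δ n = P * Bd σ' δ n := by
    unfold Bd
    rw [← Finset.prod_filter_mul_prod_filter_not σ (fun p => p ≤ m), mul_comm, hP, hσ']
    congr 1
    apply Finset.prod_congr rfl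
    intro p hp
    obtain ⟨h4, h5⟩ := Finset.mem_filter.1 hp
    have h6 : ¬ p ∣ n := fun hd => h5 (((hσ p h4).dvd_factorial).1
      (hd.trans (by rw [← hmn]; exact dvd_mul_left _ _)))
    rw [Nat.factorization_eq_zero_of_not_dvd h6, pow_zero, Nat.cast_one, div_one]
  have hmain : ∑ s ∈ K, phi σ' δ s ≤ n * Bd σ' δ n := by
    have hs1 : ∀ p ∈ σ', p.Prime := fun p hp => by
      rw [hσ'] at hp
      exact hσ p (Finset.mem_filter.1 hp).1
    have hs2 : ∀ p ∈ σ', 0 ≤ δ p ∧ δ p ≤ 1 / p := fun p hp => by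
      rw [hσ'] at hp
      exact hδ p (Finset.mem_filter.1 hp).1
    have hs3 : ∀ p ∈ σ', p ≤ m := fun p hp => by
      rw [hσ'] at hp
      exact (Finset.mem_filter.1 hp).2
    have hs4 : ∀ p ∈ σ', p ≠ 2 := fun p hp h0 => by
      rw [hσ', h0] at hp
      exact h2 (Finset.mem_filter.1 hp).1
    let S : Equiv.Perm (Fin m) → Finset ℕ := fun s => σ'.filter fun p => ¬ p ∣ orderOf s
    have hS : ∀ s, phi σ' δ s = ∏ p ∈ S s, (1 - δ p) := by
      intro s
      unfold phi
      rw [Finset.prod_filter]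
      apply Finset.prod_congr rfl
      intro p _
      by_cases h : p ∣ orderOf s <;> simp [h]
    have hpt : ∀ s, phi σ' δ s ≤ 1 - ∑ p ∈ S s, cc p * δ p := by
      intro s
      have h1 := num2 (S s) δ (fun p hp => hs1 p (Finset.mem_filter.1 hp).1)
        (fun p hp => hs2 p (Finset.mem_filter.1 hp).1)
      rw [hS]
      linarith
    have hsum : ∑ s ∈ K, ∑ p ∈ S s, cc p * δ p = ∑ p ∈ σ', (oddc m p : ℝ) * (cc p * δ p) := by
      simp only [S, Finset.sum_filter]
      rw [Finset.sum_comm]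
      apply Finset.sum_congr rfl
      intro p _
      rw [← Finset.sum_filter, Finset.sum_const, nsmul_eq_mul]
      congr 2
      unfold oddc
      rw [Nat.card_eq_fintype_card, Fintype.card_subtype, hK, Finset.filter_filter]
    have hlow : (n : ℝ) * ∑ p ∈ σ', δ p / (p ^ n.factorization p : ℕ) ≤
        ∑ p ∈ σ', (oddc m p : ℝ) * (cc p * δ p) := by
      rw [Finset.mul_sum]
      apply Finset.sum_le_sum
      intro p hp
      have hp1 := pow_fac_pos (n := n) (hs1 p hp)
      have hfac : (m !).factorization p = n.factorization p := by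
        rw [← hmn, Nat.factorization_mul two_ne_zero hn0.ne', Finsupp.add_apply,
          Nat.factorization_eq_zero_of_not_dvd (fun h => hs4 p hp
            ((Nat.prime_dvd_prime_iff_eq (hs1 p hp) Nat.prime_two).1 h)), zero_add]
      have h5 := h p (hs1 p hp) (hs4 p hp) (hs3 p hp)
      rw [hfac, ← hmn] at h5
      obtain ⟨q, hq⟩ : ∃ q : ℕ, q = p ^ n.factorization p := ⟨_, rfl⟩
      rw [← hq] at h5 hp1 ⊢
      have h6 : ((p : ℝ) + 1) * (2 * n) ≤ 4 * q * oddc m p := by exact_mod_cast h5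
      have hq0 : (0 : ℝ) < q := by linarith
      have hp0 : (0 : ℝ) < (p : ℝ) + 1 := by positivity
      have h7 : (n : ℝ) / q ≤ oddc m p * cc p := by
        simp only [cc, if_neg (hs4 p hp)]
        rw [div_le_iff₀ hq0, mul_div_assoc', div_mul_eq_mul_div, le_div_iff₀ hp0]
        linarith
      have h8 := mul_le_mul_of_nonneg_right h7 (hs2 p hp).1
      calc (n : ℝ) * (δ p / q) = n / q * δ p := by ring
        _ ≤ oddc m p * cc p * δ p := h8
        _ = oddc m p * (cc p * δ p) := by ring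
    have htot : ∑ s ∈ K, phi σ' δ s ≤ n * (1 - ∑ p ∈ σ', δ p / (p ^ n.factorization p : ℕ)) := by
      refine (Finset.sum_le_sum fun s _ => hpt s).trans ?_
      rw [Finset.sum_sub_distrib, hsum, Finset.sum_const, nsmul_eq_mul, mul_one, hKn]
      linarith
    refine htot.trans (mul_le_mul_of_nonneg_left ?_ hnR.le)
    exact weier σ' (fun p => δ p / (p ^ n.factorization p : ℕ)) (fun p hp => by
      have := fac_mem (n := n) (hs1 p hp) (hs2 p hp)
      exact ⟨this.1, by linarith [this.2]⟩)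
  rw [hBd]
  calc ∑ s ∈ K, phi σ δ s = P * ∑ s ∈ K, phi σ' δ s := by
        rw [Finset.mul_sum]
        exact Finset.sum_congr rfl fun s _ => hphi s
    _ ≤ P * (n * Bd σ' δ n) := mul_le_mul_of_nonneg_left hmain hP0
    _ = n * (P * Bd σ' δ n) := by ring

end Pool.Agent.Y67.OQ.COS
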